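import Pool.Agent.R456.RP.Basis

/-!
# The reversed primes form an asymptotic basis of finite order, in every base

For every base `b ≥ 2` every sufficiently large integer is a sum of a bounded number of reversed
primes.

The proof: let `X = b ^ L` and let `A` be the set of the reversed primes with `L` digits.

* The fourth moment of `∑_{n < X} e (α rev n + θ n)` over `α = k / X` is at most
  `b X ^ 3 exp (- c ∑_i ‖θ (b ^ 2 - 1) b ^ (2 i + r)‖ ^ 2)` (`R456.RP.A_le`); two digits at a time, the
  average over the fibre is at most `b ^ 6 - 16 ‖θ b ^ L (b ^ 2 - 1)‖ ^ 2`.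
* With the majorant of Selberg's sieve of level `X ^ c`, this gives the bound
  `O (X ^ 3 / (log X) ^ 4)` for the additive energy of `A` (`R456.RP.energy`).
* By the inequality of Cauchy and Schwarz and Chebyshev's bounds the sums of two reversed primes have
  positive lower density, and the theorem of Schnirelmann applies.
-/

set_option autoImplicit false

namespace Pool.Agent.Results.MP_199216_nt.BoundedSums

/-- `r` is a reversed prime in base `b`: for some prime `p = ∑_{i < L} ε_i b ^ i` with `L` digits in
base `b` one has `r = ∑_{i < L} ε_i b ^ (L - 1 - i)`. -/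
def ReversedPrime (b r : ℕ) : Prop :=
  ∃ p : ℕ, p.Prime ∧ r = Nat.ofDigits b (Nat.digits b p).reverse

/-- In every base `b ≥ 2` there are `K` and `N₀` such that every integer `N ≥ N₀` is a sum of at most
`K` reversed primes. -/
theorem result : ∀ b : ℕ, 2 ≤ b → ∃ K N₀ : ℕ, 1 < K ∧ ∀ N : ℕ, N₀ ≤ N →
    ∃ l : List ℕ, l.length ≤ K ∧ (∀ r ∈ l, ReversedPrime b r) ∧ l.sum = N :=
  fun b hb => Pool.Agent.R456.RP.basis b hb

end Pool.Agent.Results.MP_199216_nt.BoundedSums
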